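import Pool.Agent.Y89.TU.Stm

/-!
# Job TV-WEIL2: the Weil operator of `V ⊕ W` fixes the Hodge classes

The argument is the one of `Pool.Agent.Y259.TS.Weil` (one parameter group) for a general flow.
-/

set_option autoImplicit false

open Matrix Finset

namespace Pool.Agent.Y960.TU

open Pool.Agent.Y89.TS
open Pool.Agent.Y89.TU
open Pool.Agent.Y89.KS (sl der)

section general

variable {ι : Type} [Fintype ι] [DecidableEq ι]

/-- exchange of the value in the slot `s` with a further index -/
def swp {k : ℕ} (s : Fin k) : ((Fin k → ι) × ι) ≃ ((Fin k → ι) × ι) where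
  toFun x := (Function.update x.1 s x.2, x.1 s)
  invFun x := (Function.update x.1 s x.2, x.1 s)
  left_inv x := by
    simp
  right_inv x := by
    simp

lemma slot_sum {k : ℕ} (s : Fin k) (z g : Matrix ι ι ℂ) (f : (Fin k → ι) → ℂ)
    (I : Fin k → ι) :
    ∑ J : Fin k → ι, ((∏ s' ∈ Finset.univ.erase s, g (J s') (I s')) *
      (Complex.I * ∑ q, z (J s) q * g q (I s))) * f J
    = Complex.I * ∑ J : Fin k → ι, (∏ s', g (J s') (I s')) * sl s z f J := by
  have h1 : ∀ J : Fin k → ι, ((∏ s' ∈ Finset.univ.erase s, g (J s') (I s')) *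
      (Complex.I * ∑ q, z (J s) q * g q (I s))) * f J
      = Complex.I * ∑ q, (∏ s', g ((Function.update J s q) s') (I s')) * (z (J s) q * f J) := by
    intro J
    have h2 : ∀ q, (∏ s', g ((Function.update J s q) s') (I s'))
        = g q (I s) * ∏ s' ∈ Finset.univ.erase s, g (J s') (I s') := by
      intro q
      rw [← Finset.mul_prod_erase _ _ (Finset.mem_univ s), Function.update_self]
      congr 1
      refine Finset.prod_congr rfl fun s' hs' => ?_
      rw [Function.update_of_ne (Finset.ne_of_mem_erase hs')]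
    simp only [h2]
    rw [Finset.mul_sum, Finset.mul_sum, Finset.mul_sum, Finset.sum_mul]
    refine Finset.sum_congr rfl fun q _ => ?_
    ring
  rw [Finset.sum_congr rfl fun J _ => h1 J, ← Finset.mul_sum]
  congr 1
  have h3 : ∀ J : Fin k → ι, (∏ s', g (J s') (I s')) * sl s z f J
      = ∑ p, (∏ s', g (J s') (I s')) * (z p (J s) * f (Function.update J s p)) := by
    intro J
    unfold sl
    rw [Finset.mul_sum]
  rw [Finset.sum_congr rfl fun J _ => h3 J]
  rw [← Fintype.sum_prod_type' (fun (J : Fin k → ι) (q : ι) =>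
      (∏ s', g ((Function.update J s q) s') (I s')) * (z (J s) q * f J)),
    ← Fintype.sum_prod_type' (fun (J : Fin k → ι) (p : ι) =>
      (∏ s', g (J s') (I s')) * (z p (J s) * f (Function.update J s p)))]
  refine (Fintype.sum_equiv (swp s) _ _ fun x => ?_)
  simp [swp]

/-- the flow `G' = i X G`, `G 0 = 1` fixes the tensors killed by `X` -/
theorem flow (X : Matrix ι ι ℂ) (G : ℝ → Matrix ι ι ℂ)
    (hG : ∀ t a b, HasDerivAt (fun t => G t a b) (Complex.I * ∑ q, X a q * G t q b) t)
    (hG0 : G 0 = 1) (T : ℝ) (k : ℕ) (f : (Fin k → ι) → ℂ) (hf : der X f = 0) :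
    act (G T)ᵀ f = f := by
  have hder : ∀ J, ∑ s, sl s X f J = 0 := by
    intro J
    have h1 : ∑ s, sl s X f J = der X f J := rfl
    rw [h1, hf]
    simp
  funext I
  let φ : ℝ → ℂ := fun t => ∑ J : Fin k → ι, (∏ s, G t (J s) (I s)) * f J
  have hφ : ∀ t, HasDerivAt φ 0 t := by
    intro t
    have h1 : HasDerivAt φ (∑ J : Fin k → ι, (∑ s, (∏ s' ∈ Finset.univ.erase s,
        G t (J s') (I s')) • (Complex.I * ∑ q, X (J s) q * G t q (I s))) * f J) t := by
      refine HasDerivAt.fun_sum fun J _ => ?_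
      refine HasDerivAt.mul_const ?_ (f J)
      exact HasDerivAt.fun_finsetProd (fun s _ => hG t (J s) (I s))
    have h2 : (∑ J : Fin k → ι, (∑ s, (∏ s' ∈ Finset.univ.erase s,
        G t (J s') (I s')) • (Complex.I * ∑ q, X (J s) q * G t q (I s))) * f J) = 0 := by
      have h3 : (∑ J : Fin k → ι, (∑ s, (∏ s' ∈ Finset.univ.erase s,
          G t (J s') (I s')) • (Complex.I * ∑ q, X (J s) q * G t q (I s))) * f J)
          = ∑ s, ∑ J : Fin k → ι, ((∏ s' ∈ Finset.univ.erase s, G t (J s') (I s')) *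
            (Complex.I * ∑ q, X (J s) q * G t q (I s))) * f J := by
        rw [Finset.sum_comm]
        refine Finset.sum_congr rfl fun J _ => ?_
        rw [Finset.sum_mul]
        simp only [smul_eq_mul]
      rw [h3, Finset.sum_congr rfl fun s _ => slot_sum s X (G t) f I, ← Finset.mul_sum,
        Finset.sum_comm]
      have h4 : ∀ J : Fin k → ι, ∑ s, (∏ s', G t (J s') (I s')) * sl s X f J = 0 := by
        intro J
        rw [← Finset.mul_sum, hder, mul_zero]
      rw [Finset.sum_congr rfl fun J _ => h4 J]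
      simp
    rw [h2] at h1
    exact h1
  have hconst : φ T = φ 0 :=
    is_const_of_deriv_eq_zero (fun t => (hφ t).differentiableAt) (fun t => (hφ t).deriv) _ _
  have h0 : φ 0 = f I := by
    show ∑ J : Fin k → ι, (∏ s, G 0 (J s) (I s)) * f J = f I
    rw [hG0, Finset.sum_eq_single I]
    · simp
    · intro J _ hJ
      obtain ⟨s, hs⟩ := Function.ne_iff.1 hJ
      rw [Finset.prod_eq_zero (Finset.mem_univ s), zero_mul]
      simp [Matrix.one_apply_ne hs]
    · intro h
      exact absurd (Finset.mem_univ I) h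
  have h1 : φ T = act (G T)ᵀ f I := by
    show ∑ J : Fin k → ι, (∏ s, G T (J s) (I s)) * f J = _
    unfold act
    refine Finset.sum_congr rfl fun J _ => ?_
    congr 1
  rw [← h1, hconst, h0]

end general

/-- the group of the first block -/
noncomputable def A {n : ℕ} (x : Matrix (Fin n) (Fin n) ℂ) (t : ℝ) : Matrix (Fin n) (Fin n) ℂ :=
  1 + (Complex.I * (Real.sin t : ℂ)) • x + ((Real.cos t : ℂ) - 1) • (x * x)

/-- the group of the second block -/
noncomputable def B {w : ℕ} (y : Matrix (Fin w) (Fin w) ℂ) (t : ℝ) : Matrix (Fin w) (Fin w) ℂ :=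
  (Real.cos (t / 2) : ℂ) • 1 + (2 * Complex.I * (Real.sin (t / 2) : ℂ)) • y

lemma A_mul {n : ℕ} {x : Matrix (Fin n) (Fin n) ℂ} (hx : x * x * x = x) (t : ℝ) :
    x * A x t = (Complex.I * (Real.sin t : ℂ)) • (x * x) + (Real.cos t : ℂ) • x := by
  have hx' : x * (x * x) = x := by rw [← mul_assoc, hx]
  unfold A
  rw [mul_add, mul_add, mul_one, mul_smul_comm, mul_smul_comm, hx', sub_smul, one_smul]
  abel

lemma B_mul {w : ℕ} {y : Matrix (Fin w) (Fin w) ℂ} (hy : (4 : ℂ) • (y * y) = 1) (t : ℝ) :
    y * B y t = (Real.cos (t / 2) : ℂ) • y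
      + (1 / 2 * Complex.I * (Real.sin (t / 2) : ℂ)) • 1 := by
  unfold B
  rw [mul_add, mul_smul_comm, mul_one, mul_smul_comm]
  congr 1
  rw [← hy, smul_smul]
  congr 1
  ring

theorem t_weil2 : S_weil2 := by
  intro n w x y hx hy k f hf
  have key := flow (fromBlocks x 0 0 y) (fun t => fromBlocks (A x t) 0 0 (B y t)) ?_ ?_ Real.pi
    k f hf
  · have e : (fromBlocks (A x Real.pi) 0 0 (B y Real.pi) : Matrix (Fin n ⊕ Fin w) (Fin n ⊕ Fin w) ℂ)
        = fromBlocks (1 - (2 : ℂ) • (x * x)) 0 0 ((2 * Complex.I) • y) := by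
      congr 1
      · unfold A
        have h2 : (((-1 : ℝ) : ℂ) - 1) = -2 := by norm_num
        rw [Real.sin_pi, Real.cos_pi, h2, neg_smul, Complex.ofReal_zero, mul_zero, zero_smul,
          add_zero, ← sub_eq_add_neg]
      · unfold B
        rw [Real.sin_pi_div_two, Real.cos_pi_div_two]
        norm_num
    rw [← e]
    exact key
  · intro t a b
    have hsum : ∑ q, (fromBlocks x 0 0 y : Matrix (Fin n ⊕ Fin w) (Fin n ⊕ Fin w) ℂ) a q *
        (fromBlocks (A x t) 0 0 (B y t) : Matrix (Fin n ⊕ Fin w) (Fin n ⊕ Fin w) ℂ) q b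
        = (fromBlocks (x * A x t) 0 0 (y * B y t) :
            Matrix (Fin n ⊕ Fin w) (Fin n ⊕ Fin w) ℂ) a b := by
      rw [← Matrix.mul_apply, Matrix.fromBlocks_multiply]
      simp
    rw [hsum, A_mul hx, B_mul hy]
    rcases a with a | a <;> rcases b with b | b
    · simp only [Matrix.fromBlocks_apply₁₁, A, Matrix.add_apply, Matrix.smul_apply, smul_eq_mul]
      have h1 : HasDerivAt (fun t : ℝ => (Real.cos t : ℂ)) ((-Real.sin t : ℝ) : ℂ) t :=
        (Real.hasDerivAt_cos t).ofReal_comp
      have h2 : HasDerivAt (fun t : ℝ => (Real.sin t : ℂ)) ((Real.cos t : ℝ) : ℂ) t :=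
        (Real.hasDerivAt_sin t).ofReal_comp
      have h3 := (((h2.const_mul Complex.I).mul_const (x a b)).const_add
        ((1 : Matrix (Fin n) (Fin n) ℂ) a b)).add ((h1.sub_const 1).mul_const ((x * x) a b))
      refine h3.congr_deriv ?_
      have hI := Complex.I_mul_I
      push_cast
      linear_combination -(Complex.sin t * (x * x) a b) * hI
    · simp only [Matrix.fromBlocks_apply₁₂, Matrix.zero_apply, mul_zero]
      exact hasDerivAt_const t 0
    · simp only [Matrix.fromBlocks_apply₂₁, Matrix.zero_apply, mul_zero]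
      exact hasDerivAt_const t 0
    · simp only [Matrix.fromBlocks_apply₂₂, B, Matrix.add_apply, Matrix.smul_apply, smul_eq_mul]
      have h0 : HasDerivAt (fun t : ℝ => t / 2) (1 / 2) t := (hasDerivAt_id t).div_const 2
      have h1 : HasDerivAt (fun t : ℝ => (Real.cos (t / 2) : ℂ))
          ((-Real.sin (t / 2) * (1 / 2) : ℝ) : ℂ) t :=
        (h0.cos).ofReal_comp
      have h2 : HasDerivAt (fun t : ℝ => (Real.sin (t / 2) : ℂ))
          ((Real.cos (t / 2) * (1 / 2) : ℝ) : ℂ) t :=
        (h0.sin).ofReal_comp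
      have h3 := (h1.mul_const ((1 : Matrix (Fin w) (Fin w) ℂ) a b)).add
        ((h2.const_mul (2 * Complex.I)).mul_const (y a b))
      refine h3.congr_deriv ?_
      have hI := Complex.I_mul_I
      push_cast
      linear_combination
        -(1 / 2 * Complex.sin (t / 2) * (1 : Matrix (Fin w) (Fin w) ℂ) a b) * hI
  · show fromBlocks (A x 0) 0 0 (B y 0) = 1
    rw [← Matrix.fromBlocks_one]
    congr 1
    · simp [A]
    · simp [B]

end Pool.Agent.Y960.TU
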